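import Pool.Agent.Helper35.GL.Stm
import Pool.Agent.Helper78.EC.Logs

/-! Package GB (project GL of helper35): rationally independent logarithms of algebraic numbers. -/

set_option autoImplicit false

namespace Pool.Agent.Helper92.GL

theorem gb : Pool.Agent.Helper35.GL.S_GB := by
  intro m
  obtain ⟨e⟩ : Nonempty (Fin m ↪ Nat.Primes) :=
    ⟨(Fin.valEmbedding (n := m)).trans (Infinite.natEmbedding Nat.Primes)⟩
  refine ⟨fun j => ((Real.log ((e j : Nat.Primes) : ℕ) : ℝ) : ℂ), fun j => ?_, ?_⟩
  · rw [← Complex.ofReal_exp, Real.exp_log (by exact_mod_cast (e j).2.pos)]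
    exact_mod_cast isAlgebraic_algebraMap (R := ℚ) (A := ℂ) (((e j : Nat.Primes) : ℕ) : ℚ)
  · exact Pool.Agent.Helper78.EC.Logs.indep_log.comp e e.injective

end Pool.Agent.Helper92.GL
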